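import Pool.Agent.H31.RG.Low
import Pool.Agent.H18.RG.M
import Pool.Agent.H83.RG.BL

/-!
# MP_e83726_nt: the order of magnitude of the largest gaps between records

`g α n = S(n) n ^ α` is the normalised surplus with the exponent `α` (the problem: `α = 1/2`).  The
gaps between consecutive records of `g α` among the odd non-deficient numbers are unbounded, and the
largest ones have the exact order of magnitude `b ^ α log log b / log b`, for every `α > 0`.

Lower bound: for the product `P` of the first odd primes each odd `k < P` has fewer prime factors.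
Upper bound: a large record `n` has a prime factor `Q ≥ c log n`, as otherwise an odd multiple, just
below `n`, of a product of the first odd primes would have a larger value; with `n = Q m` the number
`m (Q - 2)` is odd and non-deficient and its value is close to that of `n`.
-/

set_option autoImplicit false

namespace Pool.Agent.Results.MP_e83726_nt.LargestGaps

/-- `H n`, the product of `p / (p - 1)` over the primes `p` dividing `n` -/
noncomputable def H (n : ℕ) : ℝ := ∏ p ∈ n.primeFactors, (p : ℝ) / (p - 1)

/-- the normalised surplus `(H n - 2) n ^ α` -/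
noncomputable def g (α : ℝ) (n : ℕ) : ℝ := (H n - 2) * (n : ℝ) ^ α

/-- `n` is odd and the sum of its divisors is at least `2 n` -/
def OddNonDeficient (n : ℕ) : Prop := Odd n ∧ 2 * n ≤ ∑ d ∈ n.divisors, d

/-- `n` sets a record for `g α` among the odd non-deficient numbers -/
def IsRecord (α : ℝ) (n : ℕ) : Prop :=
  OddNonDeficient n ∧ ∀ k < n, OddNonDeficient k → g α k < g α n

/-- the records in increasing order, `b α 0 < b α 1 < ...` -/
noncomputable def b (α : ℝ) (j : ℕ) : ℕ := Nat.nth (IsRecord α) j

/-- the gap of `g α` before the record with the number `j + 1` -/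
noncomputable def gap (α : ℝ) (j : ℕ) : ℝ := g α (b α (j + 1)) - g α (b α j)

/-- the function `n ^ α log log n / log n` -/
noncomputable def size (α : ℝ) (n : ℕ) : ℝ := (n : ℝ) ^ α * Real.log (Real.log n) / Real.log n

/-- **The largest gaps.** For every real `α > 0`: there are infinitely many records, the gaps are
unbounded, and their largest order of magnitude is `size α`: infinitely many gaps are at least
`c * size α (b α (j + 1))`, and all but finitely many are at most `C * size α (b α (j + 1))`.
The case `α = 1 / 2` of the second part is Q1. -/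
theorem result : ∀ α : ℝ, 0 < α →
    {n | IsRecord α n}.Infinite ∧
    (∀ M : ℝ, ∃ j : ℕ, M < gap α j) ∧
    ∃ c C : ℝ, 0 < c ∧ 0 < C ∧
      (∀ i : ℕ, ∃ j : ℕ, i ≤ j ∧ c * size α (b α (j + 1)) ≤ gap α j) ∧
      ∃ j₀ : ℕ, ∀ j : ℕ, j₀ ≤ j → gap α j ≤ C * size α (b α (j + 1)) := by
  intro α hα
  have hH : ∀ n, H n = Pool.Agent.Results.MP_e83726_nt.Gaps.H n := fun n => rfl
  have hg : ∀ n, g α n = Pool.Agent.H31.RG.g α n := fun n => rfl
  have hND : ∀ n, OddNonDeficient n ↔ Pool.Agent.Results.MP_e83726_nt.Gaps.ND n := by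
    intro n
    unfold OddNonDeficient Pool.Agent.Results.MP_e83726_nt.Gaps.ND
    rw [ArithmeticFunction.sigma_one_apply]
  have hrec : IsRecord α = Pool.Agent.H31.RG.Rec α := by
    funext n
    unfold IsRecord Pool.Agent.H31.RG.Rec
    simp only [hND, hg]
  have hb : ∀ j, b α j = Pool.Agent.H31.RG.b α j := by
    intro j
    unfold b Pool.Agent.H31.RG.b
    rw [hrec]
  have hinf : {n | IsRecord α n}.Infinite := by
    rw [hrec]; exact Pool.Agent.H31.RG.rec_inf hα
  obtain ⟨c, C, hc, hC, h1, j₀, h2⟩ := Pool.Agent.H31.RG.main Pool.Agent.H18.RG.stM1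
    Pool.Agent.H18.RG.stM2 Pool.Agent.H83.RG.stB Pool.Agent.H83.RG.stL α hα
  have h1' : ∀ i : ℕ, ∃ j : ℕ, i ≤ j ∧ c * size α (b α (j + 1)) ≤ gap α j := by
    intro i
    obtain ⟨j, hj, h3⟩ := h1 i
    refine ⟨j, hj, ?_⟩
    unfold gap size
    rw [hb, hb, hg, hg]
    exact h3
  refine ⟨hinf, fun M => ?_, c, C, hc, hC, h1', j₀, fun j hj => ?_⟩
  · obtain ⟨N, hN⟩ := Filter.eventually_atTop.1
      ((Pool.Agent.H31.RG.size_tendsto hα).eventually_gt_atTop (M / c))
    obtain ⟨j, hj, h3⟩ := h1' N
    refine ⟨j, lt_of_lt_of_le ?_ h3⟩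
    have h4 : j + 1 ≤ b α (j + 1) := (Nat.nth_strictMono hinf).le_apply
    have h5 := hN (b α (j + 1)) (by omega)
    rw [div_lt_iff₀ hc] at h5
    unfold size
    linarith
  · have h3 := h2 j hj
    unfold gap size
    rw [hb, hb, hg, hg]
    exact h3

end Pool.Agent.Results.MP_e83726_nt.LargestGaps
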